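import Pool.Agent.N64.AF.Q

/-!
# Statements T: functors on which the Frobenius acts by powers of q
(helper255 for project AF of helper64)
-/

set_option autoImplicit false
set_option linter.unusedSectionVars false

open CategoryTheory Limits MonoidalCategory Module Filter Topology
open Pool.Agent.Y112.SR Pool.Agent.Y112.KD
open Pool.Agent.Y116.MT (tr)
open scoped ENNReal

namespace Pool.Agent.N255.AF

open Pool.Agent.N64.AF

universe v u w t x

/-- A nonzero polynomial is a product of a divisor of a power of `b` and a polynomial coprime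
to `b`. -/
lemma poly_split {Λ : Type t} [Field Λ] (b : Polynomial Λ) : ∀ (n : ℕ) (a : Polynomial Λ),
    a ≠ 0 → a.natDegree ≤ n → ∃ (u v : Polynomial Λ) (k : ℕ), a = u * v ∧ u ∣ b ^ k ∧
      IsCoprime v b := by
  classical
  intro n
  induction n with
  | zero =>
    intro a ha hn
    refine ⟨1, a, 0, by rw [one_mul], one_dvd _, ?_⟩
    have h1 : IsUnit a := by
      rw [Polynomial.isUnit_iff_degree_eq_zero]
      rw [Polynomial.degree_eq_natDegree ha]
      have : a.natDegree = 0 := by omega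
      rw [this]
      rfl
    obtain ⟨c, hc⟩ := isUnit_iff_exists_inv'.1 h1
    exact ⟨c, 0, by rw [hc, zero_mul, add_zero]⟩
  | succ n ih =>
    intro a ha hn
    by_cases hc : IsCoprime a b
    · exact ⟨1, a, 0, by rw [one_mul], one_dvd _, hc⟩
    · obtain ⟨d, hd⟩ : ∃ d, d = EuclideanDomain.gcd a b := ⟨_, rfl⟩
      have hda : d ∣ a := by rw [hd]; exact EuclideanDomain.gcd_dvd_left a b
      have hdb : d ∣ b := by rw [hd]; exact EuclideanDomain.gcd_dvd_right a b
      obtain ⟨a', ha'⟩ := hda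
      have hd0 : d ≠ 0 := by
        rintro rfl
        rw [zero_mul] at ha'
        exact ha ha'
      have ha'0 : a' ≠ 0 := by
        rintro rfl
        rw [mul_zero] at ha'
        exact ha ha'
      have hdu : ¬ IsUnit d := by
        intro h
        apply hc
        rw [hd] at h
        exact (EuclideanDomain.gcd_isUnit_iff).1 h
      have hdeg : d.natDegree ≠ 0 := by
        intro h
        apply hdu
        rw [Polynomial.isUnit_iff_degree_eq_zero, Polynomial.degree_eq_natDegree hd0, h]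
        rfl
      have h1 : a.natDegree = d.natDegree + a'.natDegree := by
        rw [ha', Polynomial.natDegree_mul hd0 ha'0]
      obtain ⟨u', v', k, h2, h3, h4⟩ := ih a' ha'0 (by omega)
      refine ⟨d * u', v', k + 1, ?_, ?_, h4⟩
      · rw [ha', h2, mul_assoc]
      · rw [pow_succ, mul_comm (b ^ k) b]
        exact mul_dvd_mul hdb h3

variable {C : Type u} [Category.{v} C] [Preadditive C] [MonoidalCategory C]
  [MonoidalPreadditive C] [SymmetricCategory C] [RightRigidCategory C]
  {Λ : Type t} [Field Λ] [CharZero Λ] [Linear Λ C] [MonoidalLinear Λ C]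
  {K : Type w} [Field K] [Algebra Λ K] {R : SuperRealisation C K}

/-- An endomorphism satisfies a nonzero polynomial modulo numerical equivalence. -/
lemma exists_mu (hR : IsReal Λ R) {P : C} (φ : End P) : ∃ μ : Polynomial Λ, μ ≠ 0 ∧
    NumTriv (Y := P) (Z := P) (Polynomial.aeval φ μ : End P) := by
  have hfin := finite_num hR P P
  by_contra hcon
  push Not at hcon
  obtain ⟨L0, hL0⟩ : ∃ L0 : Polynomial Λ →ₗ[Λ] (P ⟶ P),
      ∀ μ, L0 μ = (Polynomial.aeval φ μ : End P) := ⟨(Polynomial.aeval φ).toLinearMap, fun _ => rfl⟩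
  obtain ⟨L, hL⟩ : ∃ L : Polynomial Λ →ₗ[Λ] ((P ⟶ P) ⧸ numIdeal Λ P P),
      L = (numIdeal Λ P P).mkQ ∘ₗ L0 := ⟨_, rfl⟩
  have hinj : Function.Injective L := by
    rw [← LinearMap.ker_eq_bot, LinearMap.ker_eq_bot']
    intro μ hμ
    by_contra h0
    apply hcon μ h0
    rw [hL] at hμ
    have h1 : L0 μ ∈ numIdeal Λ P P := (Submodule.Quotient.mk_eq_zero _).1 hμ
    rw [hL0] at h1
    exact mem_numIdeal.1 h1
  have : Module.Finite Λ (Polynomial Λ) := Module.Finite.of_injective L hinj
  exact Polynomial.not_finite this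

/-- The main construction: an endomorphism killed by `F` and numerically equal to the identity. -/
lemma exists_e (hR : IsReal Λ R) {P : C} (φ : End P) (π : Polynomial Λ)
    (hTate : ∀ x : P ⟶ P, (∃ k : ℕ, NumTriv (Y := P) (Z := P)
      ((Polynomial.aeval φ (π ^ k) : End P) ≫ x)) →
      ∃ (l : ℕ) (α : Fin l → (P ⟶ 𝟙_ C)) (β : Fin l → (𝟙_ C ⟶ P)),
      NumTriv (x - ∑ i, α i ≫ β i)) (F : C ⥤ ModuleCat.{x} Λ) [F.Additive] [F.Linear Λ]
    (hF : Subsingleton (F.obj (𝟙_ C)))
    (hφ : F.map (Polynomial.aeval φ π : End P) = 0) :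
    ∃ e : P ⟶ P, F.map e = 0 ∧ NumTriv (e - 𝟙 P) := by
  obtain ⟨μ, hμ0, hμ⟩ := exists_mu hR φ
  obtain ⟨μ1, μ2, k, h1, h2, h3⟩ := poly_split π μ.natDegree μ hμ0 le_rfl
  obtain ⟨w, hw⟩ := h2
  obtain ⟨a, b, hab⟩ := h3
  obtain ⟨p, hp⟩ : ∃ p : P ⟶ P, p = (Polynomial.aeval φ (a * μ2) : End P) := ⟨_, rfl⟩
  -- the action of `p`
  have hφ' : Pool.Agent.N712.AF.act F (Polynomial.aeval φ π : End P) = 0 := by
    rw [Pool.Agent.N712.AF.act_apply, hφ]
    rfl
  have hFp : F.map p = 𝟙 _ := by
    have e1 : a * μ2 = 1 - b * π := by rw [← hab]; ring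
    have e2 : Pool.Agent.N712.AF.act F (Polynomial.aeval φ (a * μ2) : End P) = 1 := by
      rw [e1, map_sub, map_sub, map_one, map_one, map_mul, map_mul, hφ', mul_zero, sub_zero]
    rw [Pool.Agent.N712.AF.act_apply] at e2
    rw [hp]
    exact ModuleCat.hom_ext e2
  -- the Tate condition
  have hN : NumTriv (Y := P) (Z := P) ((Polynomial.aeval φ (π ^ k) : End P) ≫ p) := by
    have e1 : (Polynomial.aeval φ (π ^ k) : End P) ≫ p =
        (Polynomial.aeval φ (μ * (w * a)) : End P) := by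
      have e2 : (Polynomial.aeval φ (μ * (w * a)) : End P) =
          (Polynomial.aeval φ (a * μ2) : End P) * (Polynomial.aeval φ (π ^ k) : End P) := by
        rw [← map_mul]
        congr 1
        rw [h1, hw]
        ring
      rw [e2, hp]
      rfl
    rw [e1]
    have e3 : (Polynomial.aeval φ (μ * (w * a)) : End P) =
        (Polynomial.aeval φ (w * a) : End P) * (Polynomial.aeval φ μ : End P) := by
      rw [← map_mul, mul_comm]
    rw [e3]
    have e4 := NumTriv.comp hR hμ (𝟙 P) (Polynomial.aeval φ (w * a) : End P)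
    rw [Category.id_comp] at e4
    exact e4
  obtain ⟨l, α, β, hαβ⟩ := hTate p ⟨k, hN⟩
  refine ⟨𝟙 P - p + ∑ i, α i ≫ β i, ?_, ?_⟩
  · have e1 : F.map (∑ i, α i ≫ β i) = 0 := by
      rw [F.map_sum]
      refine Finset.sum_eq_zero fun i _ => ?_
      rw [F.map_comp]
      have e2 : F.map (α i) = 0 := by
        ext y
        exact Subsingleton.elim _ _
      rw [e2, zero_comp]
    rw [F.map_add, F.map_sub, F.map_id, hFp, e1, sub_self, add_zero]
  · have e1 : 𝟙 P - p + ∑ i, α i ≫ β i - 𝟙 P = -(p - ∑ i, α i ≫ β i) := by abel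
    rw [e1]
    exact (numIdeal Λ P P).neg_mem (mem_numIdeal.2 hαβ)

end Pool.Agent.N255.AF

namespace Pool.Agent.N64.AF

universe v u w t x

variable {C : Type u} [Category.{v} C] [Preadditive C] [MonoidalCategory C]
  [MonoidalPreadditive C] [SymmetricCategory C] [RightRigidCategory C]
  {Λ : Type t} [Field Λ] [CharZero Λ] [Linear Λ C] [MonoidalLinear Λ C]
  {K : Type w} [Field K] [IsAlgClosed K] [Algebra Λ K] {R : SuperRealisation C K}

/-- Each endomorphism of `P` which is numerically killed by a power of `π(φ)` is numerically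
equivalent to a sum of endomorphisms which factor through the unit object. -/
def TateCond {P : C} (φ : End P) (π : Polynomial Λ) : Prop :=
  ∀ x : P ⟶ P, (∃ k : ℕ, NumTriv (Y := P) (Z := P) ((Polynomial.aeval φ (π ^ k) : End P) ≫ x)) →
    ∃ (l : ℕ) (α : Fin l → (P ⟶ 𝟙_ C)) (β : Fin l → (𝟙_ C ⟶ P)),
      NumTriv (x - ∑ i, α i ≫ β i)

/-- T1: the dichotomy for one object. -/
theorem tate_dichotomy (hR : IsReal Λ R) {P : C} (φ : End P) (π : Polynomial Λ)
    (hTate : TateCond φ π) (F : C ⥤ ModuleCat.{x} Λ) [F.Additive] [F.Linear Λ]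
    (hF : Subsingleton (F.obj (𝟙_ C)))
    (hφ : F.map (Polynomial.aeval φ π : End P) = 0) :
    Subsingleton (F.obj P) ∨ ∀ a : ℕ, Module.Finite Λ (F.obj (tp P (a + 1))) →
      (a + 1) * numRank Λ (tp P a) ≤ finrank Λ (F.obj (tp P (a + 1))) := by
  rcases subsingleton_or_nontrivial (F.obj P) with h | h
  · exact Or.inl h
  · right
    intro a ha
    obtain ⟨z, hz⟩ := exists_ne (0 : F.obj P)
    obtain ⟨e, he, he'⟩ := Pool.Agent.N255.AF.exists_e hR φ π hTate F hF hφ
    exact phantom hR F hz (by rw [he]; rfl) he' a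

/-- T2: the law for all powers. -/
theorem tate_law {T : C} [ExactPairing T T] (h : IsPow Λ R T) (φ : ∀ n : ℕ, End (tp T n))
    (π : ℕ → Polynomial Λ) (hTate : ∀ n, TateCond (φ n) (π n)) (F : C ⥤ ModuleCat.{x} Λ)
    [F.Additive] [F.Linear Λ] (hF : Subsingleton (F.obj (𝟙_ C)))
    (hφ : ∀ n, F.map (Polynomial.aeval (φ n) (π n) : End (tp T n)) = 0) :
    (∀ n, Subsingleton (F.obj (tp T n))) ∨
    Tendsto (fun n => ((dimE Λ (F.obj (tp T n)) : ℕ∞) : ℝ≥0∞) / numRank Λ (tp T n)) atTop
      (𝓝 (⊤ : ℝ≥0∞)) := by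
  by_cases hall : ∀ n, Subsingleton (F.obj (tp T n))
  · exact Or.inl hall
  · right
    rw [not_forall] at hall
    obtain ⟨m, hm⟩ := hall
    have : Nontrivial (F.obj (tp T m)) := not_subsingleton_iff_nontrivial.1 hm
    obtain ⟨N, h1, -, h3⟩ := law h F
    by_cases hN : N = ⊤
    · rw [hN] at h1
      exact h1
    · exfalso
      obtain ⟨e, he, he'⟩ := Pool.Agent.N255.AF.exists_e h.real (φ m) (π m) (hTate m) F hF (hφ m)
      have h4 := ((h3 hN).1 m).2.2 (𝟙 _ - e) (by
        have e1 : 𝟙 (tp T m) - e = -(e - 𝟙 (tp T m)) := by abel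
        rw [e1]
        exact (numIdeal Λ _ _).neg_mem (mem_numIdeal.2 he'))
      have e2 : (F.map (𝟙 (tp T m) - e)).hom = (1 : Module.End Λ (F.obj (tp T m))) := by
        rw [F.map_sub, F.map_id, he, sub_zero]
        rfl
      rw [e2] at h4
      have h5 : (1 : Module.End Λ (F.obj (tp T m))) = 0 := by
        obtain ⟨k, hk⟩ := h4
        rwa [one_pow] at hk
      obtain ⟨y, y', hy⟩ := exists_pair_ne (F.obj (tp T m))
      apply hy
      have h6 : ∀ y : F.obj (tp T m), y = 0 := fun y => LinearMap.congr_fun h5 y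
      rw [h6 y, h6 y']

end Pool.Agent.N64.AF
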